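import Pool.Agent.Helper69.UX.StD

/-!
# Project UX (MP_e12aa9_pr), module NI: nearly identical partitions
-/

set_option autoImplicit false

namespace Pool.Agent.Helper47.UX

open Finset Filter Pool.Agent.Helper82.CN Pool.Agent.Helper11.PV Pool.Agent.Helper69.VX
  Pool.Agent.Helper69.UX

/-- a partition of `Fin n` has at most `n` classes -/
theorem card_le {n : ℕ} {P : Finset (Finset (Fin n))} (hP : P ∈ Pt (Fin n)) : P.card ≤ n := by
  classical
  unfold Pt at hP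
  simp only [mem_filter, mem_univ, true_and] at hP
  obtain ⟨h1, h2, -⟩ := hP
  have h3 : P.card ≤ ∑ A ∈ P, A.card := by
    rw [Finset.card_eq_sum_ones]
    exact Finset.sum_le_sum fun A hA => (h1 A hA).card_pos
  have h4 : ∑ A ∈ P, A.card = (P.biUnion id).card := by
    rw [Finset.card_biUnion]
    · rfl
    · intro A hA B hB hAB
      exact h2 A hA B hB hAB
  have h5 : (P.biUnion id).card ≤ n := by
    have := Finset.card_le_univ (P.biUnion id)
    simpa using this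
  omega

theorem sum_inv_choose {α : Type*} [DecidableEq α] (P : Finset α) (x : ℝ) :
    ∑ I ∈ P.powerset, x / (P.card.choose (P.card - I.card) : ℝ) = (P.card + 1) * x := by
  rw [Finset.sum_powerset_apply_card (x := P) (fun m => x / (P.card.choose (P.card - m) : ℝ))]
  have h : ∀ m ∈ range (P.card + 1),
      P.card.choose m • (x / (P.card.choose (P.card - m) : ℝ)) = x := by
    intro m hm
    have hm' : m ≤ P.card := by
      have := mem_range.1 hm
      omega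
    rw [Nat.choose_symm hm', nsmul_eq_mul]
    have : (0 : ℝ) < (P.card.choose m : ℝ) := by exact_mod_cast Nat.choose_pos hm'
    field_simp
  rw [Finset.sum_congr rfl h]
  simp

theorem exp_aux (n N : ℕ) (hn : (n : ℝ) ≤ (N : ℝ) ^ 2) :
    ((n : ℝ) + 1) * Real.exp (-(3 * (N : ℝ))) ≤ Real.exp (-(N : ℝ)) := by
  have h1 : (n : ℝ) + 1 ≤ Real.exp (2 * (N : ℝ)) := by
    have h2 := Real.quadratic_le_exp_of_nonneg (x := 2 * (N : ℝ)) (by positivity)
    have h3 : (0 : ℝ) ≤ N := by positivity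
    nlinarith
  have h4 : Real.exp (2 * (N : ℝ)) * Real.exp (-(3 * (N : ℝ))) = Real.exp (-(N : ℝ)) := by
    rw [← Real.exp_add]
    congr 1
    ring
  rw [← h4]
  exact mul_le_mul_of_nonneg_right h1 (Real.exp_pos _).le

theorem hNI (hT : StNIT) (hA : StNIA) (hB : StNIB) : StNI := by
  classical
  intro p ε C₀ hp0 hp1 hε0 hε1 hC₀
  obtain ⟨ε₀, he0, he1, n1, hB'⟩ := hB p ε C₀ hp0 hp1 hε0 hε1 hC₀
  obtain ⟨n2, hA'⟩ := hA p ε C₀ hp0 hp1 hε0 hε1 hC₀
  obtain ⟨n3, hT'⟩ := hT p ε hp0 hp1 hε0 hε1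
  obtain ⟨n4, hn4⟩ : ∃ n4 : ℕ, ∀ n : ℕ, n4 ≤ n → 4 ≤ (n : ℝ) ^ (ε / 2) := by
    have h := (tendsto_rpow_atTop (show (0 : ℝ) < ε / 2 by positivity)).comp
      tendsto_natCast_atTop_atTop
    obtain ⟨m, hm⟩ := Filter.eventually_atTop.1 (h.eventually_ge_atTop 4)
    exact ⟨m, fun n hn => hm n hn⟩
  refine ⟨ε₀, he0, he1, max (max n1 n2) (max n3 (max n4 4)), ?_⟩
  intro n T N th s K₀ P hn hW hS hs0 hsN hN
  have hn1 : n1 ≤ n := le_trans (le_trans (le_max_left _ _) (le_max_left _ _)) hn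
  have hn2 : n2 ≤ n := le_trans (le_trans (le_max_right _ _) (le_max_left _ _)) hn
  have hn3 : n3 ≤ n := le_trans (le_trans (le_max_left _ _) (le_max_right _ _)) hn
  have hn34 : max n4 4 ≤ n := le_trans (le_trans (le_max_right _ _) (le_max_right _ _)) hn
  have hn4' : n4 ≤ n := le_trans (le_max_left _ _) hn34
  have hn5 : 4 ≤ n := le_trans (le_max_right _ _) hn34
  have hnR : (4 : ℝ) ≤ n := by exact_mod_cast hn5
  have hPt : P ∈ Pt (Fin n) := hS.1
  have hsz : ∀ C ∈ P, C.card ≤ T + 1 := hS.2.1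
  have hPn : P.card ≤ n := card_le hPt
  have hPnR : (P.card : ℝ) ≤ n := by exact_mod_cast hPn
  have hq0 : 0 < 1 - p := by
    have : (0 : ℝ) < 1 / Real.exp 2 := by positivity
    linarith
  have hf0 : ∀ Q : Finset (Finset (Fin n)), 0 ≤ (1 - p) ^ inn Q * (1 / (1 - p)) ^ ovl P Q := by
    intro Q
    positivity
  -- `N ≤ n` or the sum is empty
  by_cases hNn : N ≤ n
  swap
  · rw [Finset.sum_eq_zero]
    · exact (Real.exp_pos _).le
    · intro Q hQ
      exfalso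
      have h1 := (mem_filter.1 hQ).2.2.2.2
      have h2 : NR (RR ε T) P Q ≤ n := by
        unfold NR
        rw [Fintype.card_fin]
        omega
      omega
  have hNnR : (N : ℝ) ≤ n := by exact_mod_cast hNn
  have hN2 : (n : ℝ) ≤ (N : ℝ) ^ 2 := by
    have h1 : (n : ℝ) ^ (1 / 2 : ℝ) ≤ (n : ℝ) ^ (1 / 2 + ε) :=
      Real.rpow_le_rpow_of_exponent_le (by linarith) (by linarith)
    have h2 : (n : ℝ) ^ (1 / 2 : ℝ) ≤ N := h1.trans hN
    have h3 : ((n : ℝ) ^ (1 / 2 : ℝ)) ^ 2 = n := by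
      rw [← Real.rpow_natCast, ← Real.rpow_mul (by linarith)]
      norm_num
    have h4 : (0 : ℝ) ≤ (n : ℝ) ^ (1 / 2 : ℝ) := Real.rpow_nonneg (by linarith) _
    rw [← h3]
    exact pow_le_pow_left₀ h4 h2 2
  have hs4 : s ≤ n / 4 := by
    have h1 := hn4 n hn4'
    have h2 : s * 4 ≤ s * (n : ℝ) ^ (ε / 2) := mul_le_mul_of_nonneg_left h1 hs0
    linarith
  -- the bound for one set
  have key : ∀ I ∈ P.powerset.filter (fun I => (1 - ε₀) * (P.card : ℝ) < I.card),
      ∑ Q ∈ (Pt (Fin n)).filter (fun Q => (∀ B ∈ Q, B.card ≤ T + 1) ∧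
        (Q.card : ℝ) ≤ I.card + (((P.card - I.card : ℕ) : ℝ) + s + 1) ∧
        bigS (RR ε T) P Q = I ∧ NR (RR ε T) P Q = N),
        (1 - p) ^ inn Q * (1 / (1 - p)) ^ ovl P Q
      ≤ Real.exp (-(3 * (N : ℝ))) / (P.card.choose (P.card - I.card) : ℝ) := by
    intro I hI
    obtain ⟨hIP, hIc⟩ := mem_filter.1 hI
    rw [mem_powerset] at hIP
    have hcard : I.card ≤ P.card := card_le_card hIP
    obtain ⟨t₀, ht₀⟩ : ∃ t₀ : ℕ, t₀ = P.card - I.card := ⟨_, rfl⟩
    obtain ⟨N₀, hN₀⟩ : ∃ N₀ : ℕ, N₀ = n - ∑ C ∈ I, C.card := ⟨_, rfl⟩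
    have hPI : P.card = I.card + t₀ := by omega
    have hPIR : (P.card : ℝ) = I.card + t₀ := by exact_mod_cast hPI
    have ht₀e : (t₀ : ℝ) ≤ ε₀ * P.card := by
      have : (1 - ε₀) * (P.card : ℝ) < (P.card : ℝ) - t₀ := by linarith
      linarith
    have ht₀n : (t₀ : ℝ) ≤ n / 4 := by
      have h1 : ε₀ * (P.card : ℝ) ≤ 1 / 4 * n :=
        mul_le_mul he1 hPnR (Nat.cast_nonneg _) (by norm_num)
      linarith
    have ht1 : (1 : ℝ) ≤ t₀ + s + 1 := by
      have : (0 : ℝ) ≤ t₀ := Nat.cast_nonneg _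
      linarith
    have htn : (t₀ : ℝ) + s + 1 ≤ n := by linarith
    rw [← ht₀]
    have hch : (0 : ℝ) < (P.card.choose t₀ : ℝ) := by
      exact_mod_cast Nat.choose_pos (by omega : t₀ ≤ P.card)
    rw [le_div_iff₀ hch, mul_comm]
    by_cases h2 : 2 * N₀ < N
    · have h3 := hA' n T N N₀ t₀ th s K₀ P I hn2 hW hS hIP hs0 hsN hN hNn hN₀ hPI h2
      have h4 := hT' n T N N₀ th (ε / 4) (t₀ + s + 1) P I hn3 hW hPt hsz hIP hN hN₀ ht1 htn
        (by positivity)
      refine le_trans (mul_le_mul_of_nonneg_left ?_ hch.le) h3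
      unfold NB
      convert h4 using 2
    · have h3 := hB' n T N N₀ t₀ th s K₀ P I hn1 hW hS hIP hs0 hsN hN hNn hN₀ hPI (by omega) ht₀e
      have h4 := hT' n T N N₀ th 0 (t₀ + s + 1) P I hn3 hW hPt hsz hIP hN hN₀ ht1 htn (le_refl _)
      refine le_trans (mul_le_mul_of_nonneg_left ?_ hch.le) h3
      unfold NB
      convert h4 using 2
  -- sum over the sets
  have hmaps : ∀ Q ∈ (Pt (Fin n)).filter (fun Q => (∀ B ∈ Q, B.card ≤ T + 1) ∧
      (Q.card : ℝ) ≤ P.card + s ∧ (1 - ε₀) * P.card < (bigS (RR ε T) P Q).card ∧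
      NR (RR ε T) P Q = N),
      bigS (RR ε T) P Q ∈ P.powerset.filter (fun I => (1 - ε₀) * (P.card : ℝ) < I.card) := by
    intro Q hQ
    obtain ⟨-, -, -, h3, -⟩ := mem_filter.1 hQ
    rw [mem_filter, mem_powerset]
    exact ⟨filter_subset _ _, h3⟩
  have htot := Finset.sum_fiberwise_of_maps_to hmaps
    (fun Q => (1 - p) ^ inn Q * (1 / (1 - p)) ^ ovl P Q)
  have hfinal : ∑ Q ∈ (Pt (Fin n)).filter (fun Q => (∀ B ∈ Q, B.card ≤ T + 1) ∧
      (Q.card : ℝ) ≤ P.card + s ∧ (1 - ε₀) * P.card < (bigS (RR ε T) P Q).card ∧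
      NR (RR ε T) P Q = N), (1 - p) ^ inn Q * (1 / (1 - p)) ^ ovl P Q
      ≤ Real.exp (-(N : ℝ)) := by
    rw [← htot]
    calc _ ≤ ∑ I ∈ P.powerset.filter (fun I => (1 - ε₀) * (P.card : ℝ) < I.card),
          Real.exp (-(3 * (N : ℝ))) / (P.card.choose (P.card - I.card) : ℝ) := by
          refine Finset.sum_le_sum fun I hI => le_trans ?_ (key I hI)
          refine Finset.sum_le_sum_of_subset_of_nonneg ?_ fun Q _ _ => hf0 Q
          intro Q hQ
          obtain ⟨hQ1, hQ2⟩ := mem_filter.1 hQ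
          obtain ⟨hQ3, hQ4, hQ5, hQ6, hQ7⟩ := mem_filter.1 hQ1
          rw [mem_filter]
          refine ⟨hQ3, hQ4, ?_, hQ2, hQ7⟩
          have hcard : I.card ≤ P.card :=
            card_le_card (mem_powerset.1 (mem_filter.1 hI).1)
          rw [Nat.cast_sub hcard]
          linarith
      _ ≤ ∑ I ∈ P.powerset,
          Real.exp (-(3 * (N : ℝ))) / (P.card.choose (P.card - I.card) : ℝ) :=
          Finset.sum_le_sum_of_subset_of_nonneg (filter_subset _ _) fun I _ _ => by positivity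
      _ = (P.card + 1) * Real.exp (-(3 * (N : ℝ))) := sum_inv_choose P _
      _ ≤ ((n : ℝ) + 1) * Real.exp (-(3 * (N : ℝ))) :=
          mul_le_mul_of_nonneg_right (by linarith) (Real.exp_pos _).le
      _ ≤ Real.exp (-(N : ℝ)) := exp_aux n N hN2
  convert hfinal using 2

end Pool.Agent.Helper47.UX
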